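import Pool.Agent.Helper53.CTG.Goals

/-!
# PROJECT CTG (MP_8b4d68_lc): packet CTG-PB
-/

set_option autoImplicit false

namespace Pool.Agent.Helper85.CTG

open Pool.Agent.Helper53.CTG

/-- Packet CTG-PB. -/
theorem gPB : GoalPB := by
  intro N q b c hq hqN hb hc
  have hp : ∀ i j : ℕ, i ≤ j → 2 ^ i ≤ 2 ^ j := fun i j hij =>
    Nat.pow_le_pow_right (by norm_num) hij
  have hR : 1 ≤ Rb b := by
    unfold Rb
    omega
  have hP : Pb b ^ (4 * b + 2) ≤ 2 ^ Eb b := by
    unfold Eb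
    rw [mul_comm (4 * b + 2), pow_mul]
    exact Nat.pow_le_pow_left (Nat.lt_pow_succ_log_self (by norm_num) _).le _
  have hG : Gb b ^ (Hb N q + 1) ≤ 2 ^ Fb N q b := by
    unfold Fb
    rw [mul_comm (Hb N q + 1), pow_mul]
    exact Nat.pow_le_pow_left (Nat.lt_pow_succ_log_self (by norm_num) _).le _
  have hEb : 1 ≤ Eb b := by
    unfold Eb
    nlinarith [Nat.zero_le (Nat.log 2 (Pb b))]
  have hFb : Hb N q + 1 ≤ Fb N q b := by
    unfold Fb
    nlinarith [Nat.zero_le (Nat.log 2 (Gb b))]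
  have hN : Nt N q = N + Hb N q := rfl
  have hEt : Et N q b c = (3 * q + 4) * (Eb b + Fb N q b) + 4 * Nt N q + 4 * b +
    c * (Hb N q + 2) + 4 := rfl
  set E := Et N q b c with hE
  set e := Eb b
  set f := Fb N q b
  set n := Nt N q
  have h1 : (3 * q + 4) * (e + f) = (3 * q + 4) * e + (3 * q + 4) * f := by ring
  have h2 : e ≤ (3 * q + 4) * e := Nat.le_mul_of_pos_left _ (by omega)
  have h3 : f ≤ (3 * q + 4) * f := Nat.le_mul_of_pos_left _ (by omega)
  have h4 : 3 * q + 4 ≤ (3 * q + 4) * e := Nat.le_mul_of_pos_right _ (by omega)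
  rw [h1] at hEt
  have hlt : E < 2 ^ E := Nat.lt_two_pow_self
  refine ⟨hR, hP, hG, ?_, ?_, hp _ _ (by omega), hp _ _ (by omega), hp _ _ (by omega), ?_, ?_,
    hp _ _ (by omega), hp _ _ (by omega), ?_, hp _ _ (by omega), hp _ _ (by omega),
    hP.trans (hp _ _ (by omega)), by omega, by omega, by omega, by omega, ?_, by omega⟩
  · rw [← pow_mul]
    exact hp _ _ (by rw [mul_comm]; omega)
  · rw [← pow_mul]
    exact hp _ _ (by rw [mul_comm]; omega)
  · calc 8 ^ b = 2 ^ (3 * b) := by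
          rw [pow_mul]
          norm_num
      _ ≤ 2 ^ E := hp _ _ (by omega)
  · calc 4 ^ b = 2 ^ (2 * b) := by
          rw [pow_mul]
          norm_num
      _ ≤ 2 ^ E := hp _ _ (by omega)
  · calc 13 ^ n ≤ 16 ^ n := Nat.pow_le_pow_left (by norm_num) _
      _ = 2 ^ (4 * n) := by
          rw [pow_mul]
          norm_num
      _ ≤ 2 ^ E := hp _ _ (by omega)
  · calc 8 < 2 ^ 4 := by norm_num
      _ ≤ 2 ^ E := hp _ _ (by omega)

end Pool.Agent.Helper85.CTG
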